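import Mathlib

set_option autoImplicit false

namespace Pool.Agent.helper55.HallGroup

/-!
# The groups `G_ρ`

For an abelian group `K` and a function `ρ : K → ℤ`, the group `G_ρ` consists of the triples
`(z, v, l)` with `z : ℤ`, `v` in the group ring `ℤ[K]` and `l : K`, with the multiplication
`(z, v, l) (z', v', l') = (z + z' + ω(v, X^l v'), v + X^l v', l + l')`, where `ω` is the bilinear
form on `ℤ[K]` with `ω(X^g, X^h) = ρ (h - g)`.  For odd functions `ρ`, `σ` the groups `G_ρ` and
`G_σ` are isomorphic if and only if `σ ∘ β = ± ρ` for some automorphism `β` of `K` (`criterion` is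
the direction that is used).  This is a variant of a construction of P. Hall.
-/

section ring

variable {K : Type} [AddCommGroup K]

/-- The monomial `X^l` of the group ring `ℤ[K]`. -/
noncomputable def X (l : K) : AddMonoidAlgebra ℤ K := AddMonoidAlgebra.single l 1

lemma X_zero : X (0 : K) = 1 := rfl

lemma X_add (l m : K) : X (l + m) = X l * X m := by
  simp [X, AddMonoidAlgebra.single_mul_single]

lemma X_neg_mul (l : K) : X (-l) * X l = 1 := by
  rw [← X_add, neg_add_cancel, X_zero]

lemma X_mul_neg (l : K) : X l * X (-l) = 1 := by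
  rw [← X_add, add_neg_cancel, X_zero]

lemma X_mul_single (l g : K) (a : ℤ) :
    X l * AddMonoidAlgebra.single g a = AddMonoidAlgebra.single (l + g) a := by
  simp [X, AddMonoidAlgebra.single_mul_single]

lemma X_eq_one_iff (l : K) : X l = 1 ↔ l = 0 := by
  constructor
  · intro h
    rw [← X_zero] at h
    exact (AddMonoidAlgebra.single_left_inj one_ne_zero).1 h
  · rintro rfl; exact X_zero

/-- The bilinear form on `ℤ[K]` with `ω(X^g, X^h) = ρ (h - g)`. -/
noncomputable def bil (ρ : K → ℤ) : (K →₀ ℤ) →ₗ[ℤ] (K →₀ ℤ) →ₗ[ℤ] ℤ :=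
  Finsupp.linearCombination ℤ fun g => Finsupp.linearCombination ℤ fun h => ρ (h - g)

/-- The bilinear form on `ℤ[K]` with `ω(X^g, X^h) = ρ (h - g)`. -/
noncomputable def om (ρ : K → ℤ) (v w : AddMonoidAlgebra ℤ K) : ℤ := bil ρ v.coeff w.coeff

variable (ρ : K → ℤ) (u v w : AddMonoidAlgebra ℤ K)

lemma om_add_left : om ρ (u + v) w = om ρ u w + om ρ v w := by
  simp [om]

lemma om_add_right : om ρ u (v + w) = om ρ u v + om ρ u w := by
  simp [om]

lemma om_zero_left : om ρ 0 w = 0 := by simp [om]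

lemma om_zero_right : om ρ w 0 = 0 := by simp [om]

lemma om_neg_left : om ρ (-v) w = - om ρ v w := by
  have := om_add_left ρ (-v) v w
  rw [neg_add_cancel, om_zero_left] at this
  linarith

lemma om_neg_right : om ρ v (-w) = - om ρ v w := by
  have := om_add_right ρ v (-w) w
  rw [neg_add_cancel, om_zero_right] at this
  linarith

lemma om_single (g h : K) (a b : ℤ) :
    om ρ (AddMonoidAlgebra.single g a) (AddMonoidAlgebra.single h b) = a * b * ρ (h - g) := by
  simp [om, bil, Finsupp.linearCombination_single, mul_assoc]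

lemma om_X (l : K) : om ρ (X l * v) (X l * w) = om ρ v w := by
  induction v using AddMonoidAlgebra.induction_linear with
  | zero => simp [om_zero_left]
  | add v1 v2 h1 h2 => rw [mul_add, om_add_left, om_add_left, h1, h2]
  | single g a =>
    induction w using AddMonoidAlgebra.induction_linear with
    | zero => simp [om_zero_right]
    | add v1 v2 h1 h2 => rw [mul_add, om_add_right, om_add_right, h1, h2]
    | single h b =>
      rw [X_mul_single, X_mul_single, om_single, om_single]
      congr 2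
      abel

end ring

/-- The group `G_ρ`. -/
@[ext] structure GG {K : Type} [AddCommGroup K] (ρ : K → ℤ) where
  z : ℤ
  v : AddMonoidAlgebra ℤ K
  l : K

namespace GG

variable {K : Type} [AddCommGroup K] {ρ : K → ℤ}

noncomputable instance : Mul (GG ρ) :=
  ⟨fun g h => ⟨g.z + h.z + om ρ g.v (X g.l * h.v), g.v + X g.l * h.v, g.l + h.l⟩⟩

noncomputable instance : One (GG ρ) := ⟨⟨0, 0, 0⟩⟩

noncomputable instance : Inv (GG ρ) :=
  ⟨fun g => ⟨-g.z + om ρ g.v g.v, -(X (-g.l) * g.v), -g.l⟩⟩

@[simp] lemma mul_z (g h : GG ρ) : (g * h).z = g.z + h.z + om ρ g.v (X g.l * h.v) := rfl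
@[simp] lemma mul_v (g h : GG ρ) : (g * h).v = g.v + X g.l * h.v := rfl
@[simp] lemma mul_l (g h : GG ρ) : (g * h).l = g.l + h.l := rfl
@[simp] lemma one_z : (1 : GG ρ).z = 0 := rfl
@[simp] lemma one_v : (1 : GG ρ).v = 0 := rfl
@[simp] lemma one_l : (1 : GG ρ).l = 0 := rfl
@[simp] lemma inv_z (g : GG ρ) : (g⁻¹).z = -g.z + om ρ g.v g.v := rfl
@[simp] lemma inv_v (g : GG ρ) : (g⁻¹).v = -(X (-g.l) * g.v) := rfl
@[simp] lemma inv_l (g : GG ρ) : (g⁻¹).l = -g.l := rfl

noncomputable instance : Group (GG ρ) :=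
  Group.ofLeftAxioms
    (by
      intro a b c
      apply GG.ext
      · simp only [mul_z, mul_v, mul_l]
        rw [om_add_left, mul_add, om_add_right, X_add, mul_assoc, om_X]
        ring
      · simp only [mul_v, mul_l]
        rw [X_add, mul_add, mul_assoc]
        abel
      · simp only [mul_l]
        abel)
    (by
      intro a
      apply GG.ext
      · simp [om_zero_left]
      · simp [X_zero]
      · simp)
    (by
      intro a
      apply GG.ext
      · simp only [mul_z, inv_z, inv_v, inv_l, one_z]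
        rw [om_neg_left, om_X]
        ring
      · simp only [mul_v, inv_v, inv_l, one_v]
        exact neg_add_cancel _
      · simp)

/-- The central elements. -/
noncomputable def zeta (n : ℤ) : GG ρ := ⟨n, 0, 0⟩

/-- The elements of the base. -/
noncomputable def base (v : AddMonoidAlgebra ℤ K) : GG ρ := ⟨0, v, 0⟩

/-- The elements of the top group. -/
noncomputable def top (l : K) : GG ρ := ⟨0, 0, l⟩

lemma zeta_mul (m n : ℤ) : (zeta m * zeta n : GG ρ) = zeta (m + n) := by
  apply GG.ext <;> simp [zeta, om_zero_left]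

lemma zeta_zero : (zeta 0 : GG ρ) = 1 := rfl

lemma zeta_pow (m : ℤ) (n : ℕ) : (zeta m ^ n : GG ρ) = zeta (n * m) := by
  induction n with
  | zero => simp [zeta_zero]
  | succ n ih =>
    rw [pow_succ, ih, zeta_mul]
    congr 1
    push_cast
    ring

lemma zeta_inv (m : ℤ) : ((zeta m)⁻¹ : GG ρ) = zeta (-m) := by
  rw [inv_eq_iff_mul_eq_one, zeta_mul, add_neg_cancel, zeta_zero]

lemma zeta_zpow (m n : ℤ) : (zeta m ^ n : GG ρ) = zeta (n * m) := by
  obtain ⟨k, rfl | rfl⟩ := n.eq_nat_or_neg
  · rw [zpow_natCast, zeta_pow]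
  · rw [zpow_neg, zpow_natCast, zeta_pow, zeta_inv]
    congr 1
    ring

lemma zeta_comm (n : ℤ) (g : GG ρ) : zeta n * g = g * zeta n := by
  apply GG.ext
  · simp [zeta, om_zero_left, om_zero_right]
    ring
  · simp [zeta, X_zero]
  · simp [zeta]

lemma top_mul (l m : K) : (top l * top m : GG ρ) = top (l + m) := by
  apply GG.ext <;> simp [top, om_zero_left]

lemma base_mul (v w : AddMonoidAlgebra ℤ K) :
    (base v * base w : GG ρ) = zeta (om ρ v w) * base (v + w) := by
  apply GG.ext
  · simp [base, zeta, X_zero, om_zero_left]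
  · simp [base, zeta, X_zero]
  · simp [base, zeta]

lemma top_mul_base (l : K) (v : AddMonoidAlgebra ℤ K) :
    (top l * base v : GG ρ) = base (X l * v) * top l := by
  apply GG.ext
  · simp [base, top, om_zero_left, om_zero_right]
  · simp [base, top]
  · simp [base, top]

lemma decomp (g : GG ρ) : g = zeta g.z * base g.v * top g.l := by
  apply GG.ext
  · simp [base, top, zeta, om_zero_left, om_zero_right]
  · simp [base, top, zeta, X_zero]
  · simp [base, top, zeta]

/-! ### The centre and the base are characteristic -/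

section char

variable [NoZeroDivisors (AddMonoidAlgebra ℤ K)] [Nontrivial K]

lemma mem_center_iff (g : GG ρ) : g ∈ Subgroup.center (GG ρ) ↔ g.v = 0 ∧ g.l = 0 := by
  rw [Subgroup.mem_center_iff]
  constructor
  · intro h
    obtain ⟨k, hk⟩ := exists_ne (0 : K)
    have h1 := congrArg GG.v (h (top k))
    simp only [mul_v, top, mul_zero, add_zero, zero_add] at h1
    have h2 : (X k - 1) * g.v = 0 := by
      rw [sub_mul, one_mul, h1, sub_self]
    have h3 : g.v = 0 := by
      rcases mul_eq_zero.1 h2 with h3 | h3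
      · exact absurd ((X_eq_one_iff k).1 (sub_eq_zero.1 h3)) hk
      · exact h3
    refine ⟨h3, ?_⟩
    have h4 := congrArg GG.v (h (base 1))
    simp only [mul_v, base, h3, X_zero, mul_zero, add_zero, zero_add, mul_one] at h4
    exact (X_eq_one_iff g.l).1 h4.symm
  · rintro ⟨h1, h2⟩ k
    have : g = zeta g.z := by
      apply GG.ext
      · rfl
      · exact h1
      · exact h2
    rw [this]
    exact (zeta_comm _ _).symm

omit [NoZeroDivisors (AddMonoidAlgebra ℤ K)] [Nontrivial K] in
lemma comm_v (g h : GG ρ) : (g * h * g⁻¹ * h⁻¹).v = (1 - X h.l) * g.v - (1 - X g.l) * h.v := by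
  simp only [mul_v, inv_v, mul_l, inv_l]
  have e1 : X (g.l + h.l) * -(X (-g.l) * g.v) = - (X h.l * g.v) := by
    rw [mul_neg, ← mul_assoc, ← X_add]
    congr 3
    abel
  have e2 : X (g.l + h.l + -g.l) * -(X (-h.l) * h.v) = - h.v := by
    rw [mul_neg, ← mul_assoc, ← X_add]
    have : g.l + h.l + -g.l + -h.l = 0 := by abel
    rw [this, X_zero, one_mul]
  rw [e1, e2]
  ring

omit [NoZeroDivisors (AddMonoidAlgebra ℤ K)] [Nontrivial K] in
lemma comm_l (g h : GG ρ) : (g * h * g⁻¹ * h⁻¹).l = 0 := by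
  simp only [mul_l, inv_l]
  abel

/-- Intrinsic description of the base group. -/
lemma l_eq_zero_iff (g : GG ρ) :
    g.l = 0 ↔ ∀ h : GG ρ, g * (g * h * g⁻¹ * h⁻¹) * g⁻¹ * (g * h * g⁻¹ * h⁻¹)⁻¹ ∈
      Subgroup.center (GG ρ) := by
  constructor
  · intro hg h
    rw [mem_center_iff]
    refine ⟨?_, comm_l _ _⟩
    rw [comm_v, comm_l, X_zero, hg, X_zero]
    ring
  · intro h
    by_contra hg
    have h1 := ((mem_center_iff _).1 (h (base 1))).1
    rw [comm_v, comm_l, X_zero, comm_v] at h1
    simp only [base, X_zero] at h1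
    have h2 : (1 - X g.l) * (1 - X g.l) = (0 : AddMonoidAlgebra ℤ K) := by
      rw [← h1]
      ring
    rcases mul_eq_zero.1 h2 with h3 | h3 <;>
    exact hg ((X_eq_one_iff g.l).1 (sub_eq_zero.1 h3).symm)

variable {σ : K → ℤ} (Φ : GG ρ ≃* GG σ)

omit [NoZeroDivisors (AddMonoidAlgebra ℤ K)] [Nontrivial K] in
lemma map_center {g : GG ρ} (hg : g ∈ Subgroup.center (GG ρ)) :
    Φ g ∈ Subgroup.center (GG σ) := by
  rw [Subgroup.mem_center_iff] at hg ⊢
  intro h
  have := congrArg Φ (hg (Φ.symm h))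
  simpa using this

lemma map_l_zero {g : GG ρ} (hg : g.l = 0) : (Φ g).l = 0 := by
  rw [l_eq_zero_iff] at hg ⊢
  intro h
  have := map_center Φ (hg (Φ.symm h))
  simpa using this

lemma exists_map_zeta : ∃ ε : ℤ, (ε = 1 ∨ ε = -1) ∧ ∀ n, Φ (zeta n) = zeta (ε * n) := by
  have key : ∀ {ρ σ : K → ℤ} (Φ : GG ρ ≃* GG σ), ∃ ε : ℤ, ∀ n, Φ (zeta n) = zeta (ε * n) := by
    intro ρ σ Φ
    have h1 : Φ (zeta 1) ∈ Subgroup.center (GG σ) := by
      apply map_center
      rw [mem_center_iff]
      exact ⟨rfl, rfl⟩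
    rw [mem_center_iff] at h1
    have h2 : Φ (zeta 1) = zeta (Φ (zeta 1)).z := by
      apply GG.ext
      · rfl
      · exact h1.1
      · exact h1.2
    refine ⟨(Φ (zeta 1)).z, ?_⟩
    intro n
    have h3 : (zeta n : GG ρ) = zeta 1 ^ n := by rw [zeta_zpow, mul_one]
    rw [h3, map_zpow, h2, zeta_zpow, mul_comm]
    rfl
  obtain ⟨ε, hε⟩ := key Φ
  obtain ⟨δ, hδ⟩ := key Φ.symm
  refine ⟨ε, ?_, hε⟩
  have h1 : (zeta 1 : GG ρ) = zeta (δ * (ε * 1)) := by
    rw [← hδ, ← hε, Φ.symm_apply_apply]
  have h2 : 1 = δ * (ε * 1) := congrArg GG.z h1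
  rw [mul_one] at h2
  exact Int.eq_one_or_neg_one_of_mul_eq_one' h2.symm |>.elim (fun h => Or.inl h.2)
    (fun h => Or.inr h.2)

lemma map_l (g : GG ρ) : (Φ g).l = (Φ (top g.l)).l := by
  conv_lhs => rw [decomp g]
  rw [map_mul, mul_l, map_l_zero Φ (by simp [zeta, base]), zero_add]

/-- The induced automorphism of `K`. -/
noncomputable def beta : K ≃+ K where
  toFun l := (Φ (top l)).l
  invFun l := (Φ.symm (top l)).l
  left_inv l := by
    change (Φ.symm (top (Φ (top l)).l)).l = l
    rw [← map_l Φ.symm, Φ.symm_apply_apply]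
    rfl
  right_inv l := by
    change (Φ (top (Φ.symm (top l)).l)).l = l
    rw [← map_l Φ, Φ.apply_symm_apply]
    rfl
  map_add' l m := by
    rw [← top_mul, map_mul, mul_l]

lemma beta_l (g : GG ρ) : (Φ g).l = beta Φ g.l := map_l Φ g

/-- The induced map on the base. -/
noncomputable def alpha (v : AddMonoidAlgebra ℤ K) : AddMonoidAlgebra ℤ K := (Φ (base v)).v

lemma map_base_l (v : AddMonoidAlgebra ℤ K) : (Φ (base v)).l = 0 := map_l_zero Φ rfl

lemma alpha_add (v w : AddMonoidAlgebra ℤ K) : alpha Φ (v + w) = alpha Φ v + alpha Φ w := by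
  obtain ⟨ε, -, hε⟩ := exists_map_zeta Φ
  have h := congrArg (fun g => (Φ g).v) (base_mul (ρ := ρ) v w)
  simp only [map_mul, mul_v, hε, map_base_l, X_zero, one_mul] at h
  simp only [zeta, zero_add, X_zero, one_mul] at h
  exact h.symm

lemma alpha_zero : alpha Φ 0 = 0 := by
  have := alpha_add Φ 0 0
  rw [add_zero] at this
  exact left_eq_add.1 this

/-- `alpha` as an additive map. -/
noncomputable def alphaHom : AddMonoidAlgebra ℤ K →+ AddMonoidAlgebra ℤ K where
  toFun := alpha Φ
  map_zero' := alpha_zero Φ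
  map_add' := alpha_add Φ

lemma alpha_X_mul (l : K) (v : AddMonoidAlgebra ℤ K) :
    alpha Φ (X l * v) = X (beta Φ l) * alpha Φ v := by
  have h := congrArg (fun g => (Φ g).v) (top_mul_base (ρ := ρ) l v)
  simp only [map_mul, mul_v, map_base_l, X_zero, one_mul] at h
  rw [map_l Φ (top l)] at h
  have : (Φ (top l)).v + X (beta Φ l) * alpha Φ v = alpha Φ (X l * v) + (Φ (top l)).v := h
  rw [add_comm] at this
  exact (add_right_cancel this).symm

lemma alpha_surj (w : AddMonoidAlgebra ℤ K) : ∃ v, alpha Φ v = w := by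
  refine ⟨(Φ.symm (base w)).v, ?_⟩
  obtain ⟨ε, -, hε⟩ := exists_map_zeta Φ
  have h1 := decomp (Φ.symm (base w))
  have h2 : (Φ.symm (base w)).l = 0 := map_base_l Φ.symm w
  rw [h2] at h1
  have h3 := congrArg (fun g => (Φ g).v) h1
  simp only [Φ.apply_symm_apply, map_mul, hε, mul_v] at h3
  have h4 : Φ (top 0) = 1 := by
    have : (top 0 : GG ρ) = 1 := rfl
    rw [this, map_one]
  rw [h4] at h3
  simp only [zeta, one_v, mul_zero, add_zero, zero_add, X_zero, one_mul] at h3
  exact h3.symm

lemma alpha_mem_ideal (v : AddMonoidAlgebra ℤ K) : ∃ c, alpha Φ v = c * alpha Φ 1 := by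
  induction v using AddMonoidAlgebra.induction_linear with
  | zero => exact ⟨0, by rw [alpha_zero, zero_mul]⟩
  | add v1 v2 h1 h2 =>
    obtain ⟨c1, h1⟩ := h1
    obtain ⟨c2, h2⟩ := h2
    exact ⟨c1 + c2, by rw [alpha_add, h1, h2, add_mul]⟩
  | single g a =>
    refine ⟨a • X (beta Φ g), ?_⟩
    have e : (AddMonoidAlgebra.single g a : AddMonoidAlgebra ℤ K) = a • (X g * 1) := by
      rw [mul_one, X, AddMonoidAlgebra.smul_single]
      simp
    have e2 : alpha Φ (a • (X g * 1)) = a • alpha Φ (X g * 1) := map_zsmul (alphaHom Φ) a _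
    rw [e, e2, alpha_X_mul, smul_mul_assoc]

lemma alpha_one_unit : ∃ c, c * alpha Φ 1 = 1 := by
  obtain ⟨v, hv⟩ := alpha_surj Φ 1
  obtain ⟨c, hc⟩ := alpha_mem_ideal Φ v
  exact ⟨c, by rw [← hc, hv]⟩

end char

omit [AddCommGroup K] in
/-- The units of `ℤ[K]` are trivial. -/
lemma trivial_unit {K : Type} [AddCommGroup K] [TwoUniqueSums K] {c u : AddMonoidAlgebra ℤ K}
    (h : c * u = 1) :
    ∃ (k : K) (e : ℤ), e * e = 1 ∧ u = AddMonoidAlgebra.single k e := by
  classical
  have hc : c.coeff.support.Nonempty := by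
    rw [Finsupp.support_nonempty_iff]
    intro hc
    rw [AddMonoidAlgebra.coeff_eq_zero] at hc
    rw [hc, zero_mul] at h
    exact zero_ne_one h
  have hu : u.coeff.support.Nonempty := by
    rw [Finsupp.support_nonempty_iff]
    intro hu
    rw [AddMonoidAlgebra.coeff_eq_zero] at hu
    rw [hu, mul_zero] at h
    exact zero_ne_one h
  by_cases h1 : 1 < c.coeff.support.card * u.coeff.support.card
  · exfalso
    obtain ⟨p1, hp1, p2, hp2, hne, hu1, hu2⟩ := TwoUniqueSums.uniqueAdd_of_one_lt_card h1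
    rw [Finset.mem_product] at hp1 hp2
    have key : ∀ p : K × K, p.1 ∈ c.coeff.support → p.2 ∈ u.coeff.support →
        UniqueAdd c.coeff.support u.coeff.support p.1 p.2 → p.1 + p.2 = 0 := by
      intro p h1 h2 h3
      have h4 := AddMonoidAlgebra.coeff_mul_add_of_uniqueAdd h3
      rw [h, AddMonoidAlgebra.one_def, AddMonoidAlgebra.coeff_single] at h4
      by_contra hne
      rw [Finsupp.single_eq_of_ne hne] at h4
      have h5 : c.coeff p.1 ≠ 0 := Finsupp.mem_support_iff.1 h1
      have h6 : u.coeff p.2 ≠ 0 := Finsupp.mem_support_iff.1 h2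
      exact mul_ne_zero h5 h6 h4.symm
    have k1 := key p1 hp1.1 hp1.2 hu1
    have k2 := key p2 hp2.1 hp2.2 hu2
    have := hu1 hp2.1 hp2.2 (k2.trans k1.symm)
    exact hne (Prod.ext this.1.symm this.2.symm)
  · have hc1 : c.coeff.support.card = 1 := by
      have := hc.card_pos
      have := hu.card_pos
      nlinarith
    have hu1 : u.coeff.support.card = 1 := by
      have := hc.card_pos
      have := hu.card_pos
      nlinarith
    obtain ⟨k', e', -, hc2⟩ := Finsupp.card_support_eq_one'.1 hc1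
    obtain ⟨k, e, -, hu2⟩ := Finsupp.card_support_eq_one'.1 hu1
    have hc3 : c = AddMonoidAlgebra.single k' e' := by
      rw [← AddMonoidAlgebra.coeff_inj, hc2]; rfl
    have hu3 : u = AddMonoidAlgebra.single k e := by
      rw [← AddMonoidAlgebra.coeff_inj, hu2]; rfl
    refine ⟨k, e, ?_, hu3⟩
    rw [hc3, hu3, AddMonoidAlgebra.single_mul_single, AddMonoidAlgebra.one_def,
      AddMonoidAlgebra.single_inj] at h
    rcases h with ⟨-, h⟩ | ⟨-, h⟩
    · rcases Int.eq_one_or_neg_one_of_mul_eq_one' h with ⟨-, h⟩ | ⟨-, h⟩ <;> rw [h] <;> rfl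
    · exact absurd h one_ne_zero

/-- The criterion. -/
theorem criterion [TwoUniqueSums K] [Nontrivial K] {σ : K → ℤ} (hρ : ∀ m, ρ (-m) = - ρ m)
    (hσ : ∀ m, σ (-m) = - σ m) (Φ : GG ρ ≃* GG σ) :
    ∃ β : K ≃+ K, ∃ ε : ℤ, (ε = 1 ∨ ε = -1) ∧ ∀ m, σ (β m) = ε * ρ m := by
  obtain ⟨ε, hε1, hε⟩ := exists_map_zeta Φ
  refine ⟨beta Φ, ε, hε1, ?_⟩
  -- the unit
  obtain ⟨c, hc⟩ := alpha_one_unit Φ
  obtain ⟨k, e, he, hu⟩ : ∃ (k : K) (e : ℤ), e * e = 1 ∧
      alpha Φ 1 = AddMonoidAlgebra.single k e := trivial_unit hc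
  intro g
  have h1 : (base 1 * base (X g) : GG ρ) = zeta (2 * ρ g) * (base (X g) * base 1) := by
    rw [base_mul, base_mul, ← mul_assoc, zeta_mul, add_comm (X g) 1]
    congr 2
    rw [← X_zero, X, X, om_single, om_single]
    simp only [mul_one, one_mul, sub_zero, zero_sub, hρ]
    ring
  have h2 := congrArg (fun g => (Φ g).z) h1
  simp only [map_mul, hε, mul_z] at h2
  have e1 : (Φ (base 1)).v = AddMonoidAlgebra.single k e := hu
  have e2 : (Φ (base (X g))).v = AddMonoidAlgebra.single (beta Φ g + k) e := by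
    have := alpha_X_mul Φ g 1
    rw [mul_one, hu, X_mul_single] at this
    exact this
  rw [map_base_l, map_base_l, X_zero, one_mul, one_mul, e1, e2, om_single, om_single] at h2
  simp only [zeta, om_zero_left, add_zero] at h2
  have e3 : beta Φ g + k - k = beta Φ g := by abel
  have e4 : k - (beta Φ g + k) = - beta Φ g := by abel
  rw [e3, e4, hσ, he] at h2
  linarith

/-! ### The order -/

section order

variable [LinearOrder K] [IsOrderedAddMonoid K]

/-- The encoding into a lexicographic product. -/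
noncomputable def enc (g : GG ρ) : K ×ₗ (Lex (K →₀ ℤ) ×ₗ ℤ) :=
  toLex (g.l, toLex (toLex g.v.coeff, g.z))

omit [LinearOrder K] [IsOrderedAddMonoid K] in
lemma enc_injective : Function.Injective (enc : GG ρ → _) := by
  intro g h hgh
  have h1 : (g.l, toLex (toLex g.v.coeff, g.z)) = (h.l, toLex (toLex h.v.coeff, h.z)) := hgh
  rw [Prod.mk.injEq] at h1
  have h2 : (toLex g.v.coeff, g.z) = (toLex h.v.coeff, h.z) := h1.2
  rw [Prod.mk.injEq] at h2
  exact GG.ext h2.2 (AddMonoidAlgebra.coeff_inj.1 h2.1) h1.1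

/-- The linear order on `G_ρ`. -/
@[reducible] noncomputable def ord : LinearOrder (GG ρ) := LinearOrder.lift' enc enc_injective

lemma ord_le_iff (g h : GG ρ) : (ord (ρ := ρ)).le g h ↔ g.l < h.l ∨ g.l = h.l ∧
    (toLex g.v.coeff < toLex h.v.coeff ∨ g.v = h.v ∧ g.z ≤ h.z) := by
  change enc g ≤ enc h ↔ _
  rw [enc, enc, Prod.Lex.toLex_le_toLex, Prod.Lex.toLex_le_toLex]
  have : (toLex g.v.coeff = toLex h.v.coeff) ↔ g.v = h.v := by
    rw [← AddMonoidAlgebra.coeff_inj]
    exact toLex.injective.eq_iff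
  simp only [this]

lemma X_mul_lt (l : K) {v w : AddMonoidAlgebra ℤ K} (h : toLex v.coeff < toLex w.coeff) :
    toLex (X l * v).coeff < toLex (X l * w).coeff := by
  rw [Finsupp.Lex.lt_iff] at h ⊢
  obtain ⟨i, hi1, hi2⟩ := h
  have e : ∀ (u : AddMonoidAlgebra ℤ K) (k : K), (X l * u).coeff k = u.coeff (-l + k) := by
    intro u k
    rw [X, AddMonoidAlgebra.coeff_single_mul_apply, one_mul]
  refine ⟨l + i, ?_, ?_⟩
  · intro j hj
    change (X l * v).coeff j = (X l * w).coeff j
    rw [e, e]
    apply hi1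
    have := add_lt_add_right hj (-l)
    rwa [neg_add_cancel_left] at this
  · change (X l * v).coeff (l + i) < (X l * w).coeff (l + i)
    rw [e, e, neg_add_cancel_left]
    exact hi2

omit [IsOrderedAddMonoid K] in
lemma add_lt_coeff (u : AddMonoidAlgebra ℤ K) {v w : AddMonoidAlgebra ℤ K}
    (h : toLex v.coeff < toLex w.coeff) : toLex (u + v).coeff < toLex (u + w).coeff := by
  have := add_lt_add_right h (toLex u.coeff)
  exact this

theorem ord_mul_le (c a b : GG ρ) (h : (ord (ρ := ρ)).le a b) :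
    (ord (ρ := ρ)).le (c * a) (c * b) ∧ (ord (ρ := ρ)).le (a * c) (b * c) := by
  rw [ord_le_iff] at h
  rw [ord_le_iff, ord_le_iff]
  simp only [mul_l, mul_v, mul_z]
  rcases h with h | ⟨h1, h | ⟨h2, h3⟩⟩
  · exact ⟨Or.inl (add_lt_add_right h _), Or.inl (add_lt_add_left h _)⟩
  · refine ⟨Or.inr ⟨by rw [h1], Or.inl (add_lt_coeff _ (X_mul_lt _ h))⟩,
      Or.inr ⟨by rw [h1], Or.inl ?_⟩⟩
    rw [h1, add_comm a.v, add_comm b.v]
    exact add_lt_coeff _ h
  · refine ⟨Or.inr ⟨by rw [h1], Or.inr ⟨by rw [h2], by rw [h2]; linarith⟩⟩,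
      Or.inr ⟨by rw [h1], Or.inr ⟨by rw [h1, h2], by rw [h1, h2]; linarith⟩⟩⟩

end order

/-! ### Isomorphisms from automorphisms of `K` -/

/-- The map of group rings. -/
noncomputable def mp (γ : K ≃+ K) : AddMonoidAlgebra ℤ K ≃ₐ[ℤ] AddMonoidAlgebra ℤ K :=
  AddMonoidAlgebra.domCongr ℤ ℤ γ

lemma mp_X (γ : K ≃+ K) (l : K) : mp γ (X l) = X (γ l) := by
  simp [mp, X]

lemma om_mp {σ : K → ℤ} (γ : K ≃+ K) (h : ∀ m, σ (γ m) = ρ m) (v w : AddMonoidAlgebra ℤ K) :
    om σ (mp γ v) (mp γ w) = om ρ v w := by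
  induction v using AddMonoidAlgebra.induction_linear with
  | zero => simp [om_zero_left]
  | add v1 v2 h1 h2 => rw [map_add, om_add_left, om_add_left, h1, h2]
  | single g a =>
    induction w using AddMonoidAlgebra.induction_linear with
    | zero => simp [om_zero_right]
    | add v1 v2 h1 h2 => rw [map_add, om_add_right, om_add_right, h1, h2]
    | single k b =>
      simp only [mp, AddMonoidAlgebra.domCongr_single, om_single]
      rw [← h, map_sub]

/-- The isomorphism induced by `γ`. -/
noncomputable def isoOf {σ : K → ℤ} (γ : K ≃+ K) (h : ∀ m, σ (γ m) = ρ m) : GG ρ ≃* GG σ where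
  toFun g := ⟨g.z, mp γ g.v, γ g.l⟩
  invFun g := ⟨g.z, (mp γ).symm g.v, γ.symm g.l⟩
  left_inv g := by
    apply GG.ext <;> simp
  right_inv g := by
    apply GG.ext <;> simp
  map_mul' g k := by
    apply GG.ext
    · simp only [mul_z]
      rw [← mp_X, ← map_mul, om_mp γ h]
    · simp only [mul_v, map_add, map_mul, mp_X]
    · simp only [mul_l, map_add]

/-! ### Generators and the word map -/

section word

variable (t : ℕ → K) (ρ)

/-- The generators. -/
noncomputable def gen : ℕ → GG ρ
  | 0 => zeta 1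
  | 1 => base 1
  | (i + 2) => top (t i)

/-- The word map. -/
noncomputable def word : FreeGroup ℕ →* GG ρ := FreeGroup.lift (gen ρ t)

lemma word_of (i : ℕ) : word ρ t (FreeGroup.of i) = gen ρ t i := by
  simp [word]

variable {ρ t} in
lemma zeta_mem {H : Subgroup (GG ρ)} (h : zeta 1 ∈ H) (n : ℤ) : zeta n ∈ H := by
  have : (zeta n : GG ρ) = zeta 1 ^ n := by rw [zeta_zpow, mul_one]
  rw [this]
  exact H.zpow_mem h n

theorem word_surjective (ht : AddSubgroup.closure (Set.range t) = ⊤) :
    Function.Surjective (word ρ t) := by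
  rw [← MonoidHom.range_eq_top]
  set H := (word ρ t).range with hH
  have h0 : (zeta 1 : GG ρ) ∈ H := ⟨FreeGroup.of 0, word_of ρ t 0⟩
  have h1 : (base 1 : GG ρ) ∈ H := ⟨FreeGroup.of 1, word_of ρ t 1⟩
  have h2 : ∀ i, (top (t i) : GG ρ) ∈ H := fun i => ⟨FreeGroup.of (i + 2), word_of ρ t (i + 2)⟩
  have htop : ∀ l, (top l : GG ρ) ∈ H := by
    let S : AddSubgroup K :=
      { carrier := {l | (top l : GG ρ) ∈ H}
        zero_mem' := H.one_mem
        add_mem' := by
          intro a b ha hb
          change top (a + b) ∈ H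
          rw [← top_mul]
          exact H.mul_mem ha hb
        neg_mem' := by
          intro a ha
          have : (top (-a) : GG ρ) = (top a)⁻¹ := by
            rw [eq_inv_iff_mul_eq_one, top_mul, neg_add_cancel]
            rfl
          change top (-a) ∈ H
          rw [this]
          exact H.inv_mem ha }
    have : S = ⊤ := by
      rw [eq_top_iff, ← ht, AddSubgroup.closure_le]
      rintro _ ⟨i, rfl⟩
      exact h2 i
    intro l
    have hl : l ∈ S := by rw [this]; trivial
    exact hl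
  have hbase : ∀ v, (base v : GG ρ) ∈ H := by
    let S : AddSubgroup (AddMonoidAlgebra ℤ K) :=
      { carrier := {v | (base v : GG ρ) ∈ H}
        zero_mem' := H.one_mem
        add_mem' := by
          intro a b ha hb
          have : (base (a + b) : GG ρ) = (zeta (om ρ a b))⁻¹ * (base a * base b) := by
            rw [base_mul, inv_mul_cancel_left]
          change base (a + b) ∈ H
          rw [this]
          exact H.mul_mem (H.inv_mem (zeta_mem h0 _)) (H.mul_mem ha hb)
        neg_mem' := by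
          intro a ha
          have : (base (-a) : GG ρ) = (base a)⁻¹ * zeta (om ρ a (-a)) := by
            rw [eq_inv_mul_iff_mul_eq, base_mul, add_neg_cancel]
            have : (base 0 : GG ρ) = 1 := rfl
            rw [this, mul_one]
          change base (-a) ∈ H
          rw [this]
          exact H.mul_mem (H.inv_mem ha) (zeta_mem h0 _) }
    intro v
    have hX : ∀ g, X g ∈ S := by
      intro g
      have : (base (X g) : GG ρ) = top g * base 1 * (top g)⁻¹ := by
        rw [top_mul_base, mul_one, mul_inv_cancel_right]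
      change base (X g) ∈ H
      rw [this]
      exact H.mul_mem (H.mul_mem (htop g) h1) (H.inv_mem (htop g))
    have : v ∈ S := by
      induction v using AddMonoidAlgebra.induction_linear with
      | zero => exact S.zero_mem
      | add v w hv hw => exact S.add_mem hv hw
      | single g a =>
        have e : (AddMonoidAlgebra.single g a : AddMonoidAlgebra ℤ K) = a • X g := by
          rw [X, AddMonoidAlgebra.smul_single]
          simp
        rw [e]
        exact S.zsmul_mem (hX g) a
    exact this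
  rw [eq_top_iff]
  intro g _
  rw [decomp g]
  exact H.mul_mem (H.mul_mem (zeta_mem h0 _) (hbase _)) (htop _)

/-- The `v` and `l` coordinates of a word do not depend on `ρ`. -/
lemma word_vl (w : FreeGroup ℕ) : ∃ (v : AddMonoidAlgebra ℤ K) (l : K), ∀ ρ : K → ℤ,
    (word ρ t w).v = v ∧ (word ρ t w).l = l := by
  induction w using FreeGroup.induction_on with
  | C1 => exact ⟨0, 0, fun ρ => by rw [map_one]; exact ⟨rfl, rfl⟩⟩
  | of i =>
    change ∃ (v : AddMonoidAlgebra ℤ K) (l : K), ∀ ρ : K → ℤ,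
      (word ρ t (FreeGroup.of i)).v = v ∧ (word ρ t (FreeGroup.of i)).l = l
    refine ⟨(gen (0 : K → ℤ) t i).v, (gen (0 : K → ℤ) t i).l, fun ρ => ?_⟩
    rw [word_of]
    match i with
    | 0 => exact ⟨rfl, rfl⟩
    | 1 => exact ⟨rfl, rfl⟩
    | (i + 2) => exact ⟨rfl, rfl⟩
  | inv_of i h =>
    obtain ⟨v, l, h⟩ := h
    refine ⟨-(X (-l) * v), -l, fun ρ => ?_⟩
    rw [map_inv]
    obtain ⟨h1, h2⟩ := h ρ
    rw [inv_v, inv_l, h1, h2]
    exact ⟨rfl, rfl⟩
  | mul a b ha hb =>
    obtain ⟨v, l, ha⟩ := ha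
    obtain ⟨v', l', hb⟩ := hb
    refine ⟨v + X l * v', l + l', fun ρ => ?_⟩
    obtain ⟨h1, h2⟩ := ha ρ
    obtain ⟨h3, h4⟩ := hb ρ
    rw [map_mul, mul_v, mul_l, h1, h2, h3, h4]
    exact ⟨rfl, rfl⟩

lemma om_eq_sum (ρ : K → ℤ) (v w : AddMonoidAlgebra ℤ K) : om ρ v w =
    ∑ g ∈ v.coeff.support, ∑ h ∈ w.coeff.support, v.coeff g * (w.coeff h * ρ (h - g)) := by
  simp only [om, bil, Finsupp.linearCombination_apply, Finsupp.sum, LinearMap.sum_apply,
    LinearMap.smul_apply, smul_eq_mul, Finset.mul_sum]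

lemma measurable_om {Ω : Type*} [MeasurableSpace Ω] (r : Ω → K → ℤ)
    (hr : ∀ m, Measurable fun x => r x m) (v w : AddMonoidAlgebra ℤ K) :
    Measurable fun x => om (r x) v w := by
  simp only [om_eq_sum]
  apply Finset.measurable_fun_sum
  intro g _
  apply Finset.measurable_fun_sum
  intro h _
  exact ((hr _).const_mul _).const_mul _

lemma measurable_word_z {Ω : Type*} [MeasurableSpace Ω] (r : Ω → K → ℤ)
    (hr : ∀ m, Measurable fun x => r x m) (w : FreeGroup ℕ) :
    Measurable fun x => (word (r x) t w).z := by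
  induction w using FreeGroup.induction_on with
  | C1 => simp only [map_one, one_z]; exact measurable_const
  | of i =>
    change Measurable fun x => (word (r x) t (FreeGroup.of i)).z
    simp only [word_of]
    match i with
    | 0 => exact measurable_const
    | 1 => exact measurable_const
    | (i + 2) => exact measurable_const
  | inv_of i h =>
    obtain ⟨v, l, hvl⟩ := word_vl t (FreeGroup.of i)
    simp only [map_inv, inv_z]
    have e : ∀ x, (word (r x) t (FreeGroup.of i)).v = v := fun x => (hvl (r x)).1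
    have h2 : Measurable fun x => om (r x) (word (r x) t (FreeGroup.of i)).v
        (word (r x) t (FreeGroup.of i)).v := by
      simp only [e]
      exact measurable_om r hr v v
    exact (Measurable.neg h).add h2
  | mul a b ha hb =>
    obtain ⟨v, l, h⟩ := word_vl t a
    obtain ⟨v', l', h'⟩ := word_vl t b
    simp only [map_mul, mul_z]
    have h2 : Measurable fun x => om (r x) (word (r x) t a).v
        (X (word (r x) t a).l * (word (r x) t b).v) := by
      have e1 : ∀ x, (word (r x) t a).v = v := fun x => (h (r x)).1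
      have e2 : ∀ x, (word (r x) t a).l = l := fun x => (h (r x)).2
      have e3 : ∀ x, (word (r x) t b).v = v' := fun x => (h' (r x)).1
      simp only [e1, e2, e3]
      exact measurable_om r hr v _
    exact (ha.add hb).add h2

lemma measurableSet_word_eq_one {Ω : Type*} [MeasurableSpace Ω] (r : Ω → K → ℤ)
    (hr : ∀ m, Measurable fun x => r x m) (w : FreeGroup ℕ) :
    MeasurableSet {x | word (r x) t w = 1} := by
  obtain ⟨v, l, h⟩ := word_vl t w
  by_cases hvl : v = 0 ∧ l = 0
  · have e : {x | word (r x) t w = 1} = (fun x => (word (r x) t w).z) ⁻¹' {0} := by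
      ext x
      constructor
      · intro hx
        change (word (r x) t w).z = 0
        rw [show word (r x) t w = 1 from hx]
        rfl
      · intro hx
        apply GG.ext
        · exact hx
        · rw [(h (r x)).1, hvl.1]; rfl
        · rw [(h (r x)).2, hvl.2]; rfl
    rw [e]
    exact measurable_word_z t r hr w (MeasurableSet.singleton 0)
  · have e : {x | word (r x) t w = 1} = ∅ := by
      rw [Set.eq_empty_iff_forall_notMem]
      intro x hx
      apply hvl
      have hx' : word (r x) t w = 1 := hx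
      constructor
      · rw [← (h (r x)).1, hx']; rfl
      · rw [← (h (r x)).2, hx']; rfl
    rw [e]
    exact MeasurableSet.empty

end word

end GG

end Pool.Agent.helper55.HallGroup
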