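import Mathlib

set_option autoImplicit false

namespace Pool.Agent.helper55.PingPong

/-- `ℤ²` with the lexicographic order. -/
abbrev K2 : Type := ℤ ×ₗ ℤ

/-- The two coordinates. -/
def cp (k : K2) : ℤ := (ofLex k).1
def cq (k : K2) : ℤ := (ofLex k).2

def mk2 (p q : ℤ) : K2 := toLex (p, q)

@[simp] lemma cp_mk2 (p q : ℤ) : cp (mk2 p q) = p := rfl
@[simp] lemma cq_mk2 (p q : ℤ) : cq (mk2 p q) = q := rfl
@[simp] lemma cp_add (k l : K2) : cp (k + l) = cp k + cp l := rfl
@[simp] lemma cq_add (k l : K2) : cq (k + l) = cq k + cq l := rfl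
@[simp] lemma cp_neg (k : K2) : cp (-k) = -cp k := rfl
@[simp] lemma cq_neg (k : K2) : cq (-k) = -cq k := rfl
@[simp] lemma cp_zero : cp 0 = 0 := rfl
@[simp] lemma cq_zero : cq 0 = 0 := rfl
lemma cp_zsmul (n : ℤ) (k : K2) : cp (n • k) = n * cp k := rfl
lemma cq_zsmul (n : ℤ) (k : K2) : cq (n • k) = n * cq k := rfl

lemma ext2 {k l : K2} (h1 : cp k = cp l) (h2 : cq k = cq l) : k = l :=
  congrArg toLex (Prod.ext h1 h2 : ofLex k = ofLex l)

/-- The shear that fixes the direction `(i, 1)`. -/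
def Aeq (i : ℕ) : K2 ≃+ K2 where
  toFun k := mk2 (cp k - 6 * i * (cp k - i * cq k)) (cq k - 6 * (cp k - i * cq k))
  invFun k := mk2 (cp k + 6 * i * (cp k - i * cq k)) (cq k + 6 * (cp k - i * cq k))
  left_inv k := by
    apply ext2 <;> simp only [cp_mk2, cq_mk2] <;> ring
  right_inv k := by
    apply ext2 <;> simp only [cp_mk2, cq_mk2] <;> ring
  map_add' k l := by
    apply ext2 <;> simp only [cp_mk2, cq_mk2, cp_add, cq_add] <;> ring

/-- The shear, as a linear automorphism. -/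
def A (i : ℕ) : K2 ≃ₗ[ℤ] K2 := (Aeq i).toIntLinearEquiv

lemma A_apply (i : ℕ) (k : K2) :
    A i k = mk2 (cp k - 6 * i * (cp k - i * cq k)) (cq k - 6 * (cp k - i * cq k)) := rfl

lemma A_inv_apply (i : ℕ) (k : K2) : (A i)⁻¹ k =
    mk2 (cp k + 6 * i * (cp k - i * cq k)) (cq k + 6 * (cp k - i * cq k)) := rfl

/-- The ping-pong sets. -/
def XS (i : ℕ) : Bool → Set K2
  | true => {k | k ≠ 0 ∧ cq k * (cp k - i * cq k) ≤ -3 * (cp k - i * cq k) ^ 2}
  | false => {k | cp k - i * cq k ≠ 0 ∧ 3 * (cp k - i * cq k) ^ 2 ≤ cq k * (cp k - i * cq k)}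

/-- The union of the two ping-pong sets for `i`. -/
def YS (i : ℕ) : Set K2 := {k | k ≠ 0 ∧ 3 * |cp k - i * cq k| ≤ |cq k|}

lemma XS_sub (i : ℕ) (b : Bool) : XS i b ⊆ YS i := by
  intro k hk
  cases b with
  | true =>
    obtain ⟨h1, h2⟩ := hk
    refine ⟨h1, ?_⟩
    rcases eq_or_ne (cp k - i * cq k) 0 with h | h
    · rw [h]; simp
    · have h3 : 3 * |cp k - i * cq k| * |cp k - i * cq k| ≤ |cq k| * |cp k - i * cq k| := by
        rw [mul_assoc, abs_mul_abs_self, ← abs_mul]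
        have := neg_abs_le (cq k * (cp k - i * cq k))
        nlinarith
      exact le_of_mul_le_mul_right h3 (abs_pos.2 h)
  | false =>
    obtain ⟨h1, h2⟩ := hk
    refine ⟨?_, ?_⟩
    · rintro rfl; simp at h1
    · have h3 : 3 * |cp k - i * cq k| * |cp k - i * cq k| ≤ |cq k| * |cp k - i * cq k| := by
        rw [mul_assoc, abs_mul_abs_self, ← abs_mul]
        have := le_abs_self (cq k * (cp k - i * cq k))
        nlinarith
      exact le_of_mul_le_mul_right h3 (abs_pos.2 h1)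

lemma XS_disj (i : ℕ) (b : Bool) (k : K2) (h : k ∈ XS i b) : k ∉ XS i (!b) := by
  have key : ∀ k, k ∈ XS i true → k ∉ XS i false := by
    rintro k ⟨h1, h2⟩ ⟨h3, h4⟩
    have : 0 < (cp k - i * cq k) ^ 2 := by positivity
    nlinarith
  cases b with
  | true => exact key k h
  | false => exact fun h' => key k h' h

lemma YS_disj {i j : ℕ} (hij : i ≠ j) (k : K2) (h : k ∈ YS i) : k ∉ YS j := by
  rintro ⟨h1, h2⟩
  obtain ⟨_, h4⟩ := h
  -- `|q| ≤ |j - i| |q| = |d_i - d_j| ≤ |d_i| + |d_j| ≤ 2/3 |q|`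
  have hq : cq k = 0 := by
    by_contra hq
    have h5 : |(cp k - i * cq k) - (cp k - j * cq k)| = |((j : ℤ) - i)| * |cq k| := by
      rw [← abs_mul]; congr 1; ring
    have h6 : |(cp k - i * cq k) - (cp k - j * cq k)| ≤
        |cp k - i * cq k| + |cp k - j * cq k| := abs_sub _ _
    have h7 : 1 ≤ |((j : ℤ) - i)| := by
      apply Int.one_le_abs
      intro h
      apply hij
      omega
    have h8 : 0 < |cq k| := abs_pos.2 hq
    nlinarith
  rw [hq] at h2
  simp only [mul_zero, sub_zero, abs_zero] at h2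
  have hp : cp k = 0 := by
    have := abs_nonneg (cp k)
    have h9 : |cp k| = 0 := by linarith
    exact abs_eq_zero.1 h9
  exact h1 (ext2 hp hq)

lemma A_XS (i : ℕ) (k : K2) (hk : k ≠ 0) (h : k ∉ XS i false) : A i k ∈ XS i true := by
  have hAk : A i k ≠ 0 := (A i).map_ne_zero_iff.2 hk
  refine ⟨hAk, ?_⟩
  rw [A_apply]
  simp only [cp_mk2, cq_mk2]
  have e : cp k - 6 * i * (cp k - i * cq k) - i * (cq k - 6 * (cp k - i * cq k)) =
    cp k - i * cq k := by ring
  rw [e]
  rcases eq_or_ne (cp k - i * cq k) 0 with h0 | h0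
  · rw [h0]; simp
  · have h1 : cq k * (cp k - i * cq k) < 3 * (cp k - i * cq k) ^ 2 := by
      by_contra hc
      exact h ⟨h0, not_lt.1 hc⟩
    nlinarith

lemma A_inv_XS (i : ℕ) (k : K2) (hk : k ≠ 0) (h : k ∉ XS i true) : (A i)⁻¹ k ∈ XS i false := by
  have h1 : -3 * (cp k - i * cq k) ^ 2 < cq k * (cp k - i * cq k) := by
    by_contra hc
    exact h ⟨hk, not_lt.1 hc⟩
  have h0 : cp k - i * cq k ≠ 0 := by
    intro h0
    rw [h0] at h1
    simp at h1
  have e : cp k + 6 * i * (cp k - i * cq k) - i * (cq k + 6 * (cp k - i * cq k)) =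
    cp k - i * cq k := by ring
  refine ⟨?_, ?_⟩
  · rw [A_inv_apply]
    simp only [cp_mk2, cq_mk2]
    rw [e]
    exact h0
  · rw [A_inv_apply]
    simp only [cp_mk2, cq_mk2]
    rw [e]
    nlinarith

/-- The action of the free group. -/
def act2 : FreeGroup ℕ →* (K2 ≃ₗ[ℤ] K2) := FreeGroup.lift A

/-- The letter `(i, b)` maps the complement of `XS i (!b)` to `XS i b`. -/
lemma letter (i : ℕ) (b : Bool) (k : K2) (hk : k ≠ 0) (h : k ∉ XS i (!b)) :
    (bif b then A i else (A i)⁻¹) k ∈ XS i b := by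
  cases b with
  | true => exact A_XS i k hk h
  | false => exact A_inv_XS i k hk h

lemma main_list (u : K2) (hu : u ≠ 0) (huY : ∀ i, u ∉ YS i) :
    ∀ L : List (ℕ × Bool), FreeGroup.IsReduced L → ∀ i b L', L = (i, b) :: L' →
      (L.map fun x => bif x.2 then A x.1 else (A x.1)⁻¹).prod u ∈ XS i b := by
  intro L
  induction L with
  | nil => intro _ i b L' h; simp at h
  | cons a L ih =>
    intro hred i b L' h
    rw [List.cons.injEq] at h
    obtain ⟨rfl, rfl⟩ := h
    rw [List.map_cons, List.prod_cons]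
    change (bif b then A i else (A i)⁻¹)
      ((L.map fun x => bif x.2 then A x.1 else (A x.1)⁻¹).prod u) ∈ XS i b
    apply letter
    · exact (LinearEquiv.map_ne_zero_iff _).2 hu
    · cases L with
      | nil =>
        intro h
        simp only [List.map_nil, List.prod_nil] at h
        exact huY i (XS_sub i _ h)
      | cons c L =>
        obtain ⟨j, c⟩ := c
        have hred' : FreeGroup.IsReduced ((j, c) :: L) := (List.isChain_cons_cons.1 hred).2
        have h1 := ih hred' j c L rfl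
        have h2 := (List.isChain_cons_cons.1 hred).1
        simp only at h2
        by_cases hij : i = j
        · subst hij
          have := h2 rfl
          subst this
          exact XS_disj i b _ h1
        · intro h3
          exact YS_disj hij _ (XS_sub i _ h3) (XS_sub j _ h1)

lemma act2_mem (u : K2) (hu : u ≠ 0) (huY : ∀ i, u ∉ YS i) (g : FreeGroup ℕ) (hg : g ≠ 1) :
    ∃ i, act2 g u ∈ YS i := by
  have hne : g.toWord ≠ [] := by
    intro h
    exact hg (FreeGroup.toWord_eq_nil_iff.1 h)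
  obtain ⟨⟨i, b⟩, L', hL⟩ := List.exists_cons_of_ne_nil hne
  have h1 := main_list u hu huY g.toWord FreeGroup.isReduced_toWord i b L' hL
  refine ⟨i, XS_sub i b ?_⟩
  have h2 : act2 g = (g.toWord.map fun x => bif x.2 then A x.1 else (A x.1)⁻¹).prod := by
    conv_lhs => rw [← FreeGroup.mk_toWord (x := g)]
    rw [act2, FreeGroup.lift_mk]
  rw [h2]
  exact h1

/-- The cone of good vectors. -/
def D : Set K2 := {k | 0 < cq k ∧ 3 * cp k + cq k < 0}

lemma D_YS {k : K2} (hk : k ∈ D) (i : ℕ) : k ∉ YS i := by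
  rintro ⟨_, h⟩
  obtain ⟨h1, h2⟩ := hk
  have h3 : |cq k| = cq k := abs_of_pos h1
  have h4 : (0 : ℤ) ≤ i * cq k := by positivity
  have h5 : |cp k - i * cq k| = -(cp k - i * cq k) := abs_of_neg (by linarith)
  rw [h3, h5] at h
  linarith

lemma D_ne {k : K2} (hk : k ∈ D) : k ≠ 0 := by
  rintro rfl
  exact lt_irrefl _ hk.1

lemma neg_D_YS {k : K2} (hk : -k ∈ D) (i : ℕ) : k ∉ YS i := by
  rintro ⟨h0, h⟩
  apply D_YS hk i
  refine ⟨neg_ne_zero.2 h0, ?_⟩
  have e : cp (-k) - i * cq (-k) = -(cp k - i * cq k) := by simp; ring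
  rw [e, abs_neg, cq_neg, abs_neg]
  exact h

lemma eq_one_of_mem {g : FreeGroup ℕ} {u : K2} (hu : u ∈ D)
    (h : act2 g u ∈ D ∨ -(act2 g u) ∈ D) : g = 1 := by
  by_contra hg
  obtain ⟨i, hi⟩ := act2_mem u (D_ne hu) (D_YS hu) g hg
  rcases h with h | h
  · exact D_YS h i hi
  · exact neg_D_YS h i hi

/-- The marked vectors. -/
def s (n : ℕ) : K2 := if n = 0 then mk2 (-1) 1 else mk2 (-n) (n + 1)

lemma s_mem (n : ℕ) : s n ∈ D := by
  unfold s D
  split_ifs with h
  · constructor <;> simp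
  · constructor
    · simp only [cq_mk2]; positivity
    · simp only [cp_mk2, cq_mk2]
      have : 1 ≤ n := Nat.one_le_iff_ne_zero.2 h
      have : (1 : ℤ) ≤ n := by exact_mod_cast this
      linarith

lemma cq_s (n : ℕ) : cq (s n) = n + 1 := by
  unfold s
  split_ifs with h
  · rw [h]; simp
  · simp

lemma s_injective : Function.Injective s := by
  intro n m h
  have := congrArg cq h
  rw [cq_s, cq_s] at this
  omega

lemma s_succ (N : ℕ) : s (N + 1) = s 1 + (N : ℤ) • s 0 := by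
  apply ext2
  · rw [cp_add, cp_zsmul]
    simp [s]
  · rw [cq_add, cq_zsmul]
    simp [s]
    ring

lemma eventually_mem (c : K2) : ∃ N₀ : ℕ, ∀ N : ℕ, N₀ ≤ N → c + (N : ℤ) • s 0 ∈ D := by
  refine ⟨(cp c).natAbs * 3 + (cq c).natAbs + 1, ?_⟩
  intro N hN
  have h1 : cp (s 0) = -1 := by simp [s]
  have h2 : cq (s 0) = 1 := by simp [s]
  constructor
  · rw [cq_add, cq_zsmul, h2]
    omega
  · rw [cp_add, cq_add, cp_zsmul, cq_zsmul, h1, h2]
    omega

lemma unique {g g' : FreeGroup ℕ} {n n' : ℕ} (h : act2 g (s n) = act2 g' (s n')) :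
    g = g' ∧ n = n' := by
  have h1 : act2 (g'⁻¹ * g) (s n) = s n' := by
    rw [map_mul, map_inv]
    change (act2 g')⁻¹ (act2 g (s n)) = s n'
    rw [h]
    exact (act2 g').symm_apply_apply _
  have h2 : g'⁻¹ * g = 1 := eq_one_of_mem (s_mem n) (Or.inl (by rw [h1]; exact s_mem n'))
  have h3 : g = g' := (inv_mul_eq_one.1 h2).symm
  refine ⟨h3, ?_⟩
  rw [h2, map_one] at h1
  exact s_injective h1

lemma neg_ne {g g' : FreeGroup ℕ} {n n' : ℕ} (h : -(act2 g (s n)) = act2 g' (s n')) : False := by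
  have h1 : act2 (g'⁻¹ * g) (s n) = - s n' := by
    rw [map_mul, map_inv]
    change (act2 g')⁻¹ (act2 g (s n)) = - s n'
    rw [← neg_neg (act2 g (s n)), h, map_neg]
    congr 1
    exact (act2 g').symm_apply_apply _
  have h2 : g'⁻¹ * g = 1 := eq_one_of_mem (s_mem n)
    (Or.inr (by rw [h1, neg_neg]; exact s_mem n'))
  rw [h2, map_one] at h1
  have h3 := congrArg cq (show s n = - s n' from h1)
  rw [cq_neg, cq_s, cq_s] at h3
  omega

end Pool.Agent.helper55.PingPong
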