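import Mathlib
import Pool.Agent.helper55.PingPong
import Pool.Agent.helper55.HallGroup
import Pool.Agent.Lib.LusinNovikov

set_option autoImplicit false

namespace Pool.Agent.helper55.Labels

open PingPong

/-!
# Labelled functions on `ℤ²`

Given an action `a` of the free group `FreeGroup ℕ` on `Ω` and a map `φ : Ω → ℕ → Bool`, the odd
function `rho x : ℤ² → ℤ` has the value `lab (φ (g⁻¹ x)) n` at the vector `g • s n`, the opposite
value at the opposite vector, and the value `0` at the other vectors.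
-/

/-- The labels. -/
def lab (b : ℕ → Bool) (n : ℕ) : ℕ := if n = 0 then 1 else 2 * n + (b ((n - 1).unpair.1)).toNat

lemma lab_zero (b : ℕ → Bool) : lab b 0 = 1 := rfl

lemma lab_succ (b : ℕ → Bool) (n : ℕ) :
    lab b (n + 1) = 2 * (n + 1) + (b (n.unpair.1)).toNat := by
  simp [lab]

lemma toNat_lt (b : Bool) : b.toNat < 2 := by cases b <;> simp

lemma lab_pos (b : ℕ → Bool) (n : ℕ) : 0 < lab b n := by
  cases n with
  | zero => rw [lab_zero]; exact one_pos
  | succ n => rw [lab_succ]; omega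

lemma lab_inj {b b' : ℕ → Bool} {n n' : ℕ} (h : lab b n = lab b' n') : n = n' := by
  cases n with
  | zero =>
    cases n' with
    | zero => rfl
    | succ n' =>
      rw [lab_zero, lab_succ] at h
      omega
  | succ n =>
    cases n' with
    | zero =>
      rw [lab_zero, lab_succ] at h
      omega
    | succ n' =>
      rw [lab_succ, lab_succ] at h
      have := toNat_lt (b (n.unpair.1))
      have := toNat_lt (b' (n'.unpair.1))
      omega

lemma lab_bit {b b' : ℕ → Bool} {n : ℕ} (h : lab b (n + 1) = lab b' (n + 1)) :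
    b (n.unpair.1) = b' (n.unpair.1) := by
  rw [lab_succ, lab_succ] at h
  have h1 : (b (n.unpair.1)).toNat = (b' (n.unpair.1)).toNat := by omega
  cases h2 : b (n.unpair.1) <;> cases h3 : b' (n.unpair.1) <;> simp_all

variable {Ω : Type} (a : FreeGroup ℕ →* Equiv.Perm Ω) (φ : Ω → ℕ → Bool)

open Classical in
/-- The nonnegative part. -/
noncomputable def tau (x : Ω) (k : K2) : ℕ :=
  if h : ∃ p : FreeGroup ℕ × ℕ, k = act2 p.1 (s p.2) then
    lab (φ (a h.choose.1⁻¹ x)) h.choose.2 else 0

lemma tau_val (x : Ω) (g : FreeGroup ℕ) (n : ℕ) :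
    tau a φ x (act2 g (s n)) = lab (φ (a g⁻¹ x)) n := by
  have h : ∃ p : FreeGroup ℕ × ℕ, act2 g (s n) = act2 p.1 (s p.2) := ⟨(g, n), rfl⟩
  have h1 : tau a φ x (act2 g (s n)) = lab (φ (a h.choose.1⁻¹ x)) h.choose.2 := dif_pos h
  obtain ⟨h2, h3⟩ := unique h.choose_spec
  rw [h1, ← h2, ← h3]

lemma tau_zero (x : Ω) (k : K2) (h : ∀ g n, k ≠ act2 g (s n)) : tau a φ x k = 0 := by
  apply dif_neg
  rintro ⟨p, hp⟩
  exact h p.1 p.2 hp

/-- The odd function. -/
noncomputable def rho (x : Ω) (k : K2) : ℤ := (tau a φ x k : ℤ) - (tau a φ x (-k) : ℤ)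

lemma rho_neg (x : Ω) (k : K2) : rho a φ x (-k) = - rho a φ x k := by
  unfold rho
  rw [neg_neg]
  ring

lemma rho_val (x : Ω) (g : FreeGroup ℕ) (n : ℕ) :
    rho a φ x (act2 g (s n)) = lab (φ (a g⁻¹ x)) n := by
  unfold rho
  rw [tau_val, tau_zero a φ x (-(act2 g (s n))) (fun g' n' h => neg_ne h)]
  simp

lemma exists_of_rho_pos {x : Ω} {k : K2} (h : 0 < rho a φ x k) : ∃ g n, k = act2 g (s n) := by
  by_contra hc
  push Not at hc
  unfold rho at h
  rw [tau_zero a φ x k hc] at h
  have : (0 : ℤ) ≤ (tau a φ x (-k) : ℤ) := Int.natCast_nonneg _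
  push_cast at h
  linarith

lemma tau_equiv (g : FreeGroup ℕ) (x : Ω) (k : K2) :
    tau a φ (a g x) (act2 g k) = tau a φ x k := by
  by_cases h : ∃ g' n, k = act2 g' (s n)
  · obtain ⟨g', n, rfl⟩ := h
    have h1 : act2 g (act2 g' (s n)) = act2 (g * g') (s n) := by rw [map_mul]; rfl
    rw [h1, tau_val, tau_val]
    have h2 : a (g * g')⁻¹ (a g x) = a g'⁻¹ x := by
      rw [← Equiv.Perm.mul_apply, ← map_mul]
      congr 2
      group
    rw [h2]
  · push Not at h
    rw [tau_zero a φ x k h, tau_zero]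
    intro g' n hk
    apply h (g⁻¹ * g') n
    rw [map_mul, map_inv]
    change k = (act2 g)⁻¹ (act2 g' (s n))
    rw [← hk]
    exact ((act2 g).symm_apply_apply k).symm

lemma rho_equiv (g : FreeGroup ℕ) (x : Ω) (k : K2) :
    rho a φ (a g x) (act2 g k) = rho a φ x k := by
  unfold rho
  rw [← map_neg, tau_equiv, tau_equiv]

lemma measurable_lab [MeasurableSpace Ω] {f : Ω → ℕ → Bool} (hf : Measurable f) (n : ℕ) :
    Measurable fun x => lab (f x) n := by
  cases n with
  | zero => exact measurable_const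
  | succ n =>
    simp only [lab_succ]
    have h1 : Measurable fun x => f x n.unpair.1 := (measurable_pi_apply _).comp hf
    have h2 : Measurable (Bool.toNat) := measurable_from_top
    exact (h2.comp h1).const_add _

lemma measurable_tau [MeasurableSpace Ω] (ha : ∀ g, Measurable (a g)) (hφ : Measurable φ)
    (k : K2) : Measurable fun x => tau a φ x k := by
  by_cases h : ∃ g' n, k = act2 g' (s n)
  · obtain ⟨g', n, rfl⟩ := h
    simp only [tau_val]
    exact measurable_lab (hφ.comp (ha _)) n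
  · push Not at h
    have : (fun x => tau a φ x k) = fun _ => 0 := by
      funext x
      exact tau_zero a φ x k h
    rw [this]
    exact measurable_const

lemma measurable_rho [MeasurableSpace Ω] (ha : ∀ g, Measurable (a g)) (hφ : Measurable φ)
    (k : K2) : Measurable fun x => rho a φ x k := by
  have h1 : Measurable fun x => ((tau a φ x k : ℕ) : ℤ) :=
    measurable_from_top.comp (measurable_tau a φ ha hφ k)
  have h2 : Measurable fun x => ((tau a φ x (-k) : ℕ) : ℤ) :=
    measurable_from_top.comp (measurable_tau a φ ha hφ (-k))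
  exact h1.sub h2

/-- The rigidity statement, for a sign equal to one. -/
lemma rigid_aux (hφ : Function.Injective φ) {x y : Ω} (β : K2 →+ K2)
    (h : ∀ k, rho a φ y (β k) = rho a φ x k) : ∃ g, a g x = y := by
  have hx : ∀ n, rho a φ x (s n) = lab (φ x) n := by
    intro n
    have := rho_val a φ x 1 n
    simpa using this
  have key : ∀ n, ∃ g, β (s n) = act2 g (s n) ∧ lab (φ (a g⁻¹ y)) n = lab (φ x) n := by
    intro n
    have h1 : rho a φ y (β (s n)) = lab (φ x) n := by rw [h, hx]
    have h2 : 0 < rho a φ y (β (s n)) := by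
      rw [h1]
      exact_mod_cast lab_pos _ _
    obtain ⟨g, m, hgm⟩ := exists_of_rho_pos a φ h2
    rw [hgm, rho_val] at h1
    have h3 : lab (φ (a g⁻¹ y)) m = lab (φ x) n := by exact_mod_cast h1
    have h4 := lab_inj h3
    subst h4
    exact ⟨g, hgm, h3⟩
  choose G hG1 hG2 using key
  -- for large `n`, `G (n + 1) = G 0`
  obtain ⟨N₀, hN₀⟩ := eventually_mem (act2 (G 0)⁻¹ (β (s 1)))
  have hG : ∀ N, N₀ ≤ N → G (N + 1) = G 0 := by
    intro N hN
    have h1 : act2 (G (N + 1)) (s (N + 1)) = β (s 1) + (N : ℤ) • act2 (G 0) (s 0) := by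
      rw [← hG1, s_succ, map_add, map_zsmul, hG1 0]
    have h2 : act2 ((G 0)⁻¹ * G (N + 1)) (s (N + 1)) =
        act2 (G 0)⁻¹ (β (s 1)) + (N : ℤ) • s 0 := by
      have e1 : act2 ((G 0)⁻¹ * G (N + 1)) (s (N + 1)) =
          act2 (G 0)⁻¹ (act2 (G (N + 1)) (s (N + 1))) := by rw [map_mul]; rfl
      rw [e1, h1, map_add, map_zsmul]
      congr 2
      rw [map_inv]
      exact (act2 (G 0)).symm_apply_apply _
    have h3 : (G 0)⁻¹ * G (N + 1) = 1 :=
      eq_one_of_mem (s_mem _) (Or.inl (by rw [h2]; exact hN₀ N hN))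
    exact (inv_mul_eq_one.1 h3).symm
  refine ⟨G 0, ?_⟩
  have hbits : φ (a (G 0)⁻¹ y) = φ x := by
    funext j
    have h1 : N₀ ≤ Nat.pair j N₀ := Nat.right_le_pair _ _
    have h2 := hG2 (Nat.pair j N₀ + 1)
    rw [hG _ h1] at h2
    have h3 := lab_bit h2
    simpa using h3
  have h4 := hφ hbits
  rw [← h4, ← Equiv.Perm.mul_apply, ← map_mul, mul_inv_cancel, map_one]
  rfl

/-- The rigidity statement. -/
lemma rigid (hφ : Function.Injective φ) {x y : Ω} (β : K2 ≃+ K2) {ε : ℤ} (hε : ε = 1 ∨ ε = -1)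
    (h : ∀ k, rho a φ y (β k) = ε * rho a φ x k) : ∃ g, a g x = y := by
  rcases hε with rfl | rfl
  · apply rigid_aux a φ hφ β.toAddMonoidHom
    intro k
    have := h k
    rw [one_mul] at this
    exact this
  · apply rigid_aux a φ hφ (-β.toAddMonoidHom)
    intro k
    have h1 := h k
    change rho a φ y (-(β k)) = _
    rw [rho_neg, h1]
    ring

end Pool.Agent.helper55.Labels
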