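import Mathlib
import Pool.Agent.helper55.Labels

set_option autoImplicit false

namespace Pool.Agent.helper55.BiOrd

open PingPong HallGroup HallGroup.GG Labels

/-- The generators of `ℤ²`, followed by zeros. -/
def tt : ℕ → K2
  | 0 => mk2 1 0
  | 1 => mk2 0 1
  | _ => 0

lemma closure_tt : AddSubgroup.closure (Set.range tt) = ⊤ := by
  rw [eq_top_iff]
  intro k _
  have : k = cp k • tt 0 + cq k • tt 1 := by
    apply ext2
    · rw [cp_add, cp_zsmul, cp_zsmul]; simp [tt]
    · rw [cq_add, cq_zsmul, cq_zsmul]; simp [tt]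
  rw [this]
  exact AddSubgroup.add_mem _
    (AddSubgroup.zsmul_mem _ (AddSubgroup.subset_closure (Set.mem_range_self 0)) _)
    (AddSubgroup.zsmul_mem _ (AddSubgroup.subset_closure (Set.mem_range_self 1)) _)

lemma gen_eq_one (ρ : K2 → ℤ) (i : ℕ) (hi : 4 ≤ i) : gen ρ tt i = 1 := by
  obtain ⟨j, rfl⟩ : ∃ j, i = j + 2 + 2 := ⟨i - 4, by omega⟩
  rfl

open Classical in
/-- The code of the marked group. -/
noncomputable def code (ρ : K2 → ℤ) (g : FreeGroup ℕ) : Bool := decide (word ρ tt g = 1)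

lemma set_eq (ρ : K2 → ℤ) : {h : FreeGroup ℕ | code ρ h = true} = ((word ρ tt).ker : Set _) := by
  ext h
  simp [code, MonoidHom.mem_ker]

lemma closure_eq (ρ : K2 → ℤ) :
    Subgroup.normalClosure {h : FreeGroup ℕ | code ρ h = true} = (word ρ tt).ker := by
  rw [set_eq]
  exact Subgroup.normalClosure_eq_self _

/-- The marked group is `G_ρ`. -/
noncomputable def quotEquiv (ρ : K2 → ℤ) :
    (FreeGroup ℕ ⧸ Subgroup.normalClosure {h : FreeGroup ℕ | code ρ h = true}) ≃* GG ρ :=
  (QuotientGroup.quotientMulEquivOfEq (closure_eq ρ)).trans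
    (QuotientGroup.quotientKerEquivOfSurjective _ (word_surjective ρ tt closure_tt))

lemma measurable_code {Ω : Type} [MeasurableSpace Ω] (r : Ω → K2 → ℤ)
    (hr : ∀ m, Measurable fun x => r x m) : Measurable fun x => code (r x) := by
  rw [measurable_pi_iff]
  intro g
  apply measurable_to_bool
  have : (fun x => code (r x) g) ⁻¹' {true} = {x | word (r x) tt g = 1} := by
    ext x
    simp [code]
  rw [this]
  exact measurableSet_word_eq_one tt r hr g

theorem main (Ω : Type) [MeasurableSpace Ω] [StandardBorelSpace Ω] (E : Ω → Ω → Prop)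
    (hE : Equivalence E) (hm : MeasurableSet {p : Ω × Ω | E p.1 p.2})
    (hc : ∀ x : Ω, {y : Ω | E x y}.Countable) :
    ∃ r : Ω → K2 → ℤ, (∀ m, Measurable fun x => r x m) ∧
      ∀ x y, E x y ↔ Nonempty (GG (r x) ≃* GG (r y)) := by
  obtain ⟨T, hT1, hT2, hT3⟩ := Lib.LusinNovikov.feldman_moore hE hm hc
  obtain ⟨φ, hφ, hφi⟩ := MeasurableSpace.measurable_injection_nat_bool_of_countablySeparated Ω
  let a : FreeGroup ℕ →* Equiv.Perm Ω := FreeGroup.lift fun n => (hT2 n).toPerm (T n)
  have ha1 : ∀ n x, a (FreeGroup.of n) x = T n x := by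
    intro n x
    simp [a]
  have ha2 : ∀ n x, a (FreeGroup.of n)⁻¹ x = T n x := by
    intro n x
    rw [map_inv, Equiv.Perm.inv_eq_iff_eq, ha1, hT2 n x]
  have ha3 : ∀ g h x, a (g * h) x = a g (a h x) := by
    intro g h x
    rw [map_mul]
    rfl
  have hmeas : ∀ g, Measurable (a g) := by
    intro g
    induction g using FreeGroup.induction_on with
    | C1 => rw [map_one]; exact measurable_id
    | of n =>
      have : (a (FreeGroup.of n) : Ω → Ω) = T n := funext (ha1 n)
      rw [this]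
      exact hT1 n
    | inv_of n _ =>
      have : (a (FreeGroup.of n)⁻¹ : Ω → Ω) = T n := funext (ha2 n)
      rw [this]
      exact hT1 n
    | mul g h hg hh =>
      have : (a (g * h) : Ω → Ω) = a g ∘ a h := funext (ha3 g h)
      rw [this]
      exact hg.comp hh
  have hE' : ∀ g x, E x (a g x) := by
    intro g
    induction g using FreeGroup.induction_on with
    | C1 => intro x; rw [map_one]; exact hE.refl x
    | of n => intro x; rw [ha1]; exact (hT3 x _).2 ⟨n, rfl⟩
    | inv_of n _ => intro x; rw [ha2]; exact (hT3 x _).2 ⟨n, rfl⟩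
    | mul g h hg hh => intro x; rw [ha3]; exact hE.trans (hh x) (hg _)
  refine ⟨fun x => rho a φ x, measurable_rho a φ hmeas hφ, ?_⟩
  intro x y
  constructor
  · intro hxy
    obtain ⟨n, hn⟩ := (hT3 x y).1 hxy
    refine ⟨isoOf (act2 (FreeGroup.of n)).toAddEquiv ?_⟩
    intro m
    have := rho_equiv a φ (FreeGroup.of n) x m
    rw [ha1, hn] at this
    exact this
  · rintro ⟨Φ⟩
    obtain ⟨β, ε, hε, h⟩ := criterion (rho_neg a φ x) (rho_neg a φ y) Φ
    obtain ⟨g, hg⟩ := rigid a φ hφi β hε h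
    rw [← hg]
    exact hE' g x

end Pool.Agent.helper55.BiOrd
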